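import Pool.Agent.Helper45.SP.GoalsF

/-!
# Section G: the Lie algebra of the closure is nilpotent

See `GoalsF.lean` for the conventions.
-/

open Complex Metric Set Filter Topology
open scoped ContDiff ComplexConjugate

namespace Pool.Agent.Helper45.SP

open Pool.Agent.Helper95.Lin Pool.Agent.Helper10.SP

/-- PICK. A holomorphic function whose modulus is almost `1` is almost constant.
PROOF. Let `z ∈ ball z₀ ρ`, `e ∈ Cn b` with `‖e‖ ≤ 1`, `R := ρ' - ρ`, `φ(ζ) := f (z + ζ e)` for `|ζ| < R`. `|φ| ≤ 1 + ε`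
and `|φ(0)| ≥ 1 - ε`. Schwarz-Pick for `φ/(1+ε)` (compose with the Moebius map of the unit disc which
maps `φ(0)/(1+ε)` to `0` and use `Complex.norm_deriv_le_div_of_mapsTo_ball`; enlarge `1 + ε` a little
to get strict inequalities, or treat the constant case by the maximum principle) gives
`|φ'(0)| ≤ ((1+ε)² - (1-ε)²)/((1+ε) R) ≤ 4 ε/R`. -/
def S_PICK : Prop := ∀ {b : ℕ} (z₀ : Cn b) (ρ ρ' : ℝ), ρ < ρ' → ∀ (f : Cn b → ℂ) (ε : ℝ), ε ≤ 1 →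
  DifferentiableOn ℂ f (ball z₀ ρ') → (∀ z ∈ ball z₀ ρ', |‖f z‖ - 1| ≤ ε) →
  ∀ z ∈ ball z₀ ρ, ‖fderiv ℂ f z‖ ≤ 4 * ε / (ρ' - ρ)

/-- COMM. Commutators. USES: LCONV, LMUL, LCMP', SURJ, PICK.
PROOF. Let `δ, δ'` be small, `t` `δ`-near, `s` `δ'`-near on `ball z₀ (r/2)`; by `LCMP'` they are `Cδ`-, `Cδ'`-near on
`ball z₀ (3r/4)`, and by Cauchy `‖D(t.g - id)‖ ≤ Cδ`, `‖D(s.g - id)‖ ≤ Cδ'` on `ball z₀ (2r/3)`. `st := s.comp t`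
and `ts := t.comp s` are elements near the identity, and so is the inverse `v` of `st` and
`c := ts · v` (`LMUL`), and `c · st = ts` near `z₀`; this holds on `ball z₀ (2r/3)` (identity theorem). Every
`y ∈ ball z₀ (r/2)` is `s.g (t.g x)` with `x ∈ ball z₀ (3r/5)` and `‖x - y‖ ≤ C (δ + δ')` (`SURJ`).
(1) `c.g y - y = t.g (s.g x) - s.g (t.g x) = [(t.g - id)(s.g x) - (t.g - id)(x)] -
[(s.g - id)(t.g x) - (s.g - id)(x)]`, of norm `≤ C δ δ'`.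
(2) By `PICK` and `lip`: `‖D t.a‖ ≤ C δ`, `‖D s.a‖ ≤ C δ'` on `ball z₀ (r/4)`, and `|t.a|, |s.a|` are between `1/2`
and `2` there. For `y = z₀` (so `x` is near `z₀`): `c.a y * s.a (t.g x) * t.a x = t.a (s.g x) * s.a x`, so
`c.a y = (t.a (s.g x)/t.a x) (s.a x/s.a (t.g x)) = (1 + O(δ δ'))²`.
(3) `c.β y = ts.β x - c.a y * st.β x` and `ts.β x - st.β x = (t.a (s.g x) - 1) s.β x + (s.β x - s.β (t.g x)) +
(t.β (s.g x) - t.β x) + (1 - s.a (t.g x)) t.β x`. By `grow` `|s.β| ≤ C (1 + |s.β z₀|)` on the ball, and by Cauchy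
the same bound for its derivative near `z₀`; the same for `t`. `|t.a (s.g x) - 1| ≤ |t.a z₀ - 1| + C δ`.
`|(1 - c.a y) st.β x| ≤ C δ δ' (2 + |s.β z₀| + |t.β z₀|)`. -/
def S_COMM : Prop := ∀ {b : ℕ} {z₀ : Cn b} {r : ℝ} {A : Set (Tri b)}, PGrp z₀ r A →
  ∃ η > 0, ∃ C : ℝ, 0 ≤ C ∧ ∀ t ∈ A, ∀ s ∈ A, ∀ δ δ' : ℝ, δ ≤ η → δ' ≤ η →
    Near z₀ (r / 2) t.g δ → Near z₀ (r / 2) s.g δ' → ∃ c ∈ A, IsComm z₀ c t s ∧
      Near z₀ (r / 2) c.g (C * δ * δ') ∧ ‖c.a z₀ - 1‖ ≤ C * δ * δ' ∧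
      ‖c.β z₀‖ ≤ C * ((‖t.a z₀ - 1‖ + δ) * (1 + ‖s.β z₀‖) +
        (‖s.a z₀ - 1‖ + δ') * (1 + ‖t.β z₀‖))

/-- STEP. The linearization of the commutator. USES: LCONV, LMUL, LCMP', LNCMP, LADD', SURJ.
PROOF. `σ := nL z₀ r V`. On `ball z₀ (r/2)` `‖s.g z - z‖ ≤ (1 + κ') σ ≤ 2 σ`, so by `LCMP'` `≤ C σ` on
`ball z₀ (3r/4)`. Let `y ∈ ball z₀ (r/4)`, `y = s.g (t.g x)` with `x ∈ ball z₀ (r/3)` (`SURJ`; `t` and `s` are near the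
identity). `c.g y - y = t.g (s.g x) - s.g (t.g x)`. `t.g (s.g x) = t.g x + Dt x (s.g x - x) + O(σ²) = t.g x +
Dt x (V x) + O(κ' σ + σ²)`, `s.g (t.g x) = t.g x + V (t.g x) + O(κ' σ)`; so `c.g y - y = W (t.g x) - V (t.g x) +
O(κ'σ + σ²)` and `y - t.g x = O(σ)`; the fields `V`, `W - V` have Lipschitz constants `O(σ)` on
`ball z₀ (r/3)` (`nL V = σ`; `‖W‖ ≤ C σ` on `ball z₀ (r/3)` because `W (t.g x) = Dt x (V x)`), so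
`c.g y - y = (W - V) y + O(κ' σ + σ²)`. On the other hand `c.g y - y = U y + O(κ' nL U)` and `nL U ≤ C σ`
(`‖c.g y - y‖ ≤ C σ` on `ball z₀ (r/2)`: `c.g y = t.g (s.g x)`, `y = s.g (t.g x)` as in `COMM` (1); or `LCMP'` from
`ball z₀ (r/4)`; then `nL U ≤ C σ + κ' nL U`, `κ' ≤ 1/2`). So `‖(U - (W - V)) y‖ ≤ C (κ' + σ) σ` on
`ball z₀ (r/4)`, and by `LNCMP` (for the generator `U - W + V`, `LADD'`) the same on `ball z₀ (r/2)`.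
`C` does not depend on `t`, `s`; `σ ≤ 2 σ₀` (`nL V ≤ σ₀ + κ' nL V`). -/
def S_STEP : Prop := ∀ {b : ℕ} {z₀ : Cn b} {r : ℝ} {A : Set (Tri b)}, LGrp z₀ r A →
  ∃ η > 0, ∀ κ > 0, ∃ κ' > 0, ∃ σ₀ > 0, ∀ t ∈ A, Near z₀ (r / 2) t.g η →
    ∀ s ∈ A, Near z₀ (r / 2) s.g σ₀ → ∀ c ∈ A, IsComm z₀ c t s → Near z₀ (r / 2) c.g σ₀ →
    ∀ V W U, InLL z₀ r A V → InLL z₀ r A W → InLL z₀ r A U → AdR z₀ r t.g V W →
    (∀ z ∈ ball z₀ (r / 2), ‖s.g z - z - V z‖ ≤ κ' * nL z₀ r V) →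
    (∀ z ∈ ball z₀ (r / 2), ‖c.g z - z - U z‖ ≤ κ' * nL z₀ r U) →
    nL z₀ r (U - (W - V)) ≤ κ * nL z₀ r V

/-- LNRM. `nL` is a norm on generators. PROOF. `V` is continuous on the compact set
`closedBall z₀ (r/2) ⊆ ball z₀ r`, so the supremum is finite (`le_csSup`). If it is `0` then `V = 0` on
`ball z₀ (r/2)`, so `V = 0` on the ball by the identity theorem, and `V = 0` outside. -/
def S_LNRM : Prop := ∀ {b : ℕ} {z₀ : Cn b} {r : ℝ} {A : Set (Tri b)}, 0 < r →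
  ∀ V W : Cn b → Cn b, InLL z₀ r A V → InLL z₀ r A W →
    (∀ z ∈ ball z₀ (r / 2), ‖V z‖ ≤ nL z₀ r V) ∧ (∀ M, 0 ≤ M →
      (∀ z ∈ ball z₀ (r / 2), ‖V z‖ ≤ M) → nL z₀ r V ≤ M) ∧ 0 ≤ nL z₀ r V ∧
    (nL z₀ r V = 0 → V = 0) ∧ nL z₀ r (V + W) ≤ nL z₀ r V + nL z₀ r W ∧
    ∀ c : ℝ, nL z₀ r (c • V) = |c| * nL z₀ r V

/-- SEQ. Approximate orbits of a linear map that is not nilpotent do not reach `0`. Pure linear
algebra. PROOF. Fitting: `E = E₀ ⊕ E₁`, both invariant under `N`, `N^d = 0` on `E₀`, `N` injective on `E₁`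
(`LinearMap.exists...` / `Module.End` Fitting lemma: `E₀ = ker N^d`, `E₁ = range N^d` for large `d`),
`E₁ ≠ 0`. All norms on the finite dimensional space are equivalent; let `P` be a bound for the norms
of the projections, `|N x| ≥ c |x|` on `E₁` with `0 < c ≤ 1`, `|N x| ≤ B |x|`, `B ≥ 1`. Take `x₀ ∈ E₁` nonzero.
`Δ_k = x_k + y_k` (`x_k ∈ E₁`, `y_k ∈ E₀`). Claim: `|y_k| ≤ |x_k|` and `|x_k| ≥ (c/2) |x_{k-1}|`, by strong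
induction. Start: `|y_0| ≤ P κ |Δ_0| ≤ P κ (|x_0| + |y_0|)`. Step: `x_{k+1} = N x_k + e_k`, `y_{k+1} = N y_k + f_k`,
`|e_k|, |f_k| ≤ P κ |Δ_k| ≤ 2 P κ |x_k|`; `|x_{k+1}| ≥ (c - 2 P κ)|x_k| ≥ (c/2)|x_k|`; `y_{k+1} = N^{m+1} y_{k-m} +
∑_{j ≤ m} N^j f_{k-j}` with `m = min (k, d-1)`: the first term is `0` if `m = d - 1`, and otherwise `k - m = 0`,
`|y_0| ≤ 2 P κ |x_0|`; `|f_{k-j}| ≤ 2 P κ (2/c)^{j+1} |x_{k+1}|`. So `|y_{k+1}| ≤ κ · const · |x_{k+1}|`. Since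
`x_0 ≠ 0` all `x_k ≠ 0`, so `Δ_k ≠ 0`. -/
def S_SEQ : Prop := ∀ (E : Type) [AddCommGroup E] [Module ℝ E] [FiniteDimensional ℝ E]
  (ν : Seminorm ℝ E), (∀ x, ν x = 0 → x = 0) → ∀ N : E →ₗ[ℝ] E, ¬ IsNilpotent N →
  ∃ κ > 0, ∃ x₀ : E, x₀ ≠ 0 ∧ ∀ Δ : ℕ → E, Δ 0 ≠ 0 → (∃ c : ℝ, ν (Δ 0 - c • x₀) ≤ κ * ν (Δ 0)) →
    (∀ k, ν (Δ (k + 1) - N (Δ k)) ≤ κ * ν (Δ k)) → ∀ k, Δ k ≠ 0

/-- NILT. `Ad t - 1` is nilpotent for `t` near the identity. USES: LNRM, COMM, STEP, SEQ, LAPPR,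
LNCMP.
PROOF. Let `η` be small: smaller than the constants of `COMM`, `STEP` and `C (2 η) ≤ 1/4`, `C η ≤ 1/2` for the
`C` of `COMM`. Suppose `N = Ad t - 1` is not nilpotent. `SEQ` for `ν x = nL z₀ r (Φ x)` (`LNRM`) gives `κ, x₀`;
`STEP` for `κ` gives `κ', σ₀`; by `LAPPR` for `ρ = r/2` and `κ'/2` (`κ' ≤ 1`): for every `s ∈ A` with
`τ := sup_{ball z₀ (r/2)} ‖s.g z - z‖ ≤ s₀` there is a generator `V` with error `≤ (κ'/2) τ`, and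
`τ ≤ nL V + (κ'/2) τ`, so the error is `≤ κ' nL V`. Start: the definition of `InLL` for `Φ x₀` gives `s_0 ∈ A`
with `‖s_0 z - z - σ Φ x₀ z‖ ≤ ε σ` with `σ` and `ε` as small as we like; its approximating generator
`Φ (Δ 0)` satisfies `ν (Δ 0 - σ x₀) ≤ κ ν (Δ 0)` and `Δ 0 ≠ 0`. `s_{k+1} := c` of `COMM` for `t, s_k`:
`s_{k+1}` is `C η σ_k ≤ σ_k/2`-near if `s_k` is `σ_k`-near, so all `s_k` are near, `σ_k = 2^{-k} σ_0 → 0`;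
`Φ (Δ (k+1))` an approximating generator of `s_{k+1}` (for `k ≥ 0`; if `τ = 0` take `0`); `STEP` gives
`ν (Δ (k+1) - N (Δ k)) ≤ κ ν (Δ k)`. So all `Δ k ≠ 0` and hence `s_k.g ≠ id` on the ball (if `s_k.g = id` the
approximation gives `nL V ≤ κ' nL V`, so `V = 0`, `κ' < 1`). `COMM`: `a_k := ‖(s_k).a z₀ - 1‖ ≤ C η σ_0` for
`k ≥ 1`, `B_k := 1 + ‖(s_k).β z₀‖` satisfies `B_{k+1} ≤ 1 + C (2 η) B_k + C (a_k + σ_k)(1 + ‖t.β z₀‖)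
≤ B_k/4 + const`, so `B_k ≤ R` for all `k`. By `fin` `s_k.g = id` for large `k`: contradiction. -/
def S_NILT : Prop := ∀ {b : ℕ} {z₀ : Cn b} {r : ℝ} {A : Set (Tri b)}, PGrp z₀ r A →
  ∀ {𝔤 : Type} [LieRing 𝔤] [LieAlgebra ℝ 𝔤] {Φ : 𝔤 →ₗ[ℝ] (Cn b → Cn b)}, LAlg z₀ r A Φ →
  ∃ η > 0, ∀ t ∈ A, Near z₀ (r / 2) t.g η → ‖t.a z₀ - 1‖ ≤ η → ∀ N : 𝔤 →ₗ[ℝ] 𝔤,
    (∀ x, AdR z₀ r t.g (Φ x) (Φ (x + N x))) → IsNilpotent N

/-- ANG. Elements in the direction `V` whose factor is near `1`. USES: LCONV, POW, PEX, PICK.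
PROOF. We may assume `0 < ρ`, `ρ ≥ r/2`. Given `ε` (small) let `K` be an integer with `2π/K < ε/4`. For
`σ' > 0` very small (depending on `K`) let `t ≈ id + σ' V` with error `ε' σ'` on `ball z₀ ρ₁`, `ρ < ρ₁ < r`. Its
powers `u l`, `l ≤ K`, exist (`PEX`) and satisfy `(u l).g z - z = l σ' V z + O(l ε' σ' + (K σ')²)` on `ball z₀ ρ`,
`(u l).a z₀ = ∏_{j<l} t.a ((u j).g z₀)`. By `lip` and `PICK` `|t.a (y) - t.a z₀| ≤ C σ'` near `z₀` and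
`|‖t.a z₀‖ - 1| ≤ C σ'`, so `(u l).a z₀ = e^{i l θ} (1 + O(K σ'))`, `θ = arg (t.a z₀)`. Pigeonhole: some `l` with
`1 ≤ l ≤ K` has `|e^{ilθ} - 1| ≤ 2π/K`. Take `u l` and `σ = l σ'`. -/
def S_ANG : Prop := ∀ {b : ℕ} {z₀ : Cn b} {r : ℝ} {A : Set (Tri b)}, PGrp z₀ r A →
  ∀ V, InLL z₀ r A V → ∀ ρ < r, ∀ ε > 0, ∃ σ : ℝ, 0 < σ ∧ σ < ε ∧ ∃ t ∈ A,
    (∀ z ∈ ball z₀ ρ, ‖t.g z - z - σ • V z‖ ≤ ε * σ) ∧ ‖t.a z₀ - 1‖ ≤ ε

/-- NILLIM. Limits of nilpotent endomorphisms are nilpotent. PROOF. `N` is nilpotent iff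
`N ^ n = 0`, `n = finrank` (`LinearMap.IsNilpotent...`, characteristic polynomial / Cayley-Hamilton), a
closed condition: choose a basis; the matrices of `N_k` converge entrywise to the matrix of `T`
(apply the hypothesis to the basis vectors), so `(N_k)^n → T^n`. -/
def S_NILLIM : Prop := ∀ (E : Type) [AddCommGroup E] [Module ℝ E] [FiniteDimensional ℝ E]
  (ν : Seminorm ℝ E), (∀ x, ν x = 0 → x = 0) → ∀ (N : ℕ → E →ₗ[ℝ] E) (T : E →ₗ[ℝ] E),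
  (∀ k, IsNilpotent (N k)) → (∀ x, Tendsto (fun k => ν (N k x - T x)) atTop (𝓝 0)) →
  IsNilpotent T

/-- ADN. `ad V` is nilpotent. USES: LNRM, LNCMP, LAD, LADAPX, NILT, ANG, NILLIM.
PROOF. Let `x ∈ 𝔤`, `V = Φ x`. For each `k` `ANG` (`ρ = 3r/4`) gives `σ_k < 1/(k+1)`, `t_k ∈ A` with error `σ_k/(k+1)`
and `‖t_k.a z₀ - 1‖ ≤ 1/(k+1)`. For large `k` let `N_k : 𝔤 → 𝔤`, `Φ (y + N_k y)` the field of `LAD` (unique by the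
identity theorem: `t_k.g` is onto a neighbourhood of `z₀`; so `N_k` is linear). `NILT`: `N_k` is nilpotent, so
is `(1/σ_k) N_k`. `LADAPX` (`ρ = r/4`): `(1/σ_k) Φ (N_k y) → - brV V (Φ y) = - Φ ⁅x, y⁆` uniformly on
`ball z₀ (r/4)`, and by `LNCMP` in the norm `nL`. `NILLIM`: `- ad x` is nilpotent. -/
def S_ADN : Prop := ∀ {b : ℕ} {z₀ : Cn b} {r : ℝ} {A : Set (Tri b)}, PGrp z₀ r A →
  ∀ {𝔤 : Type} [LieRing 𝔤] [LieAlgebra ℝ 𝔤] {Φ : 𝔤 →ₗ[ℝ] (Cn b → Cn b)}, LAlg z₀ r A Φ →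
  ∀ x : 𝔤, IsNilpotent (LieAlgebra.ad ℝ 𝔤 x)

/-- LCENT. The center of the Lie algebra is not zero. USES: LLALG, ADN.
PROOF. `LLALG`, `ADN` and Engel's theorem (`LieAlgebra.isNilpotent_iff_forall`): `𝔤` is nilpotent and
nontrivial, so its center is not trivial (`LieModule.nontrivial_max_triv_of_isNilpotent` or
`LieAlgebra` center). Translate by `Φ`. -/
def S_LCENT : Prop := ∀ {b : ℕ} {z₀ : Cn b} {r : ℝ} {A : Set (Tri b)}, PGrp z₀ r A →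
  (∃ V, InLL z₀ r A V ∧ ∃ z ∈ ball z₀ r, V z ≠ 0) →
  ∃ V, InLL z₀ r A V ∧ (∃ z ∈ ball z₀ r, V z ≠ 0) ∧
    ∀ W, InLL z₀ r A W → ∀ z ∈ ball z₀ r, brV V W z = 0

/-- `V` is in the center of the Lie algebra of the generators. -/
def InZL {b : ℕ} (z₀ : Cn b) (r : ℝ) (A : Set (Tri b)) (V : Cn b → Cn b) : Prop :=
  InLL z₀ r A V ∧ ∀ W, InLL z₀ r A W → ∀ z ∈ ball z₀ r, brV V W z = 0

/-- ZTRANS. Transport of the center. USES: LTRANS.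
PROOF. Let `V' ` be the transport of `V` (`LTRANS` for `h`). Let `W'` be a generator of `A'`; its transport
`W` by `k` (`LTRANS` for `k`, with the roles exchanged) is a generator of `A` with `W (k w) = Dk w (W' w)` on
`ball y d'`. Near `k y`: `W' (h z) = Dh z (W z)` (since `h ∘ k = id`, `Dh (k w) Dk w = 1`). Naturality of the
bracket: from `V' ∘ h = Dh V` and `W' ∘ h = Dh W` near `k y` one gets `(brV V' W') ∘ h = Dh (brV V W)`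
(chain rule and symmetry of `D²h`), which is `0`. So `brV V' W'` vanishes on the open set
`h (neighbourhood of k y)`, which contains a neighbourhood of `y`, and on `ball z₁ r₁` by the identity
theorem. -/
def S_ZTRANS : Prop := ∀ {b : ℕ} {z₀ z₁ : Cn b} {r r₁ : ℝ} {A A' : Set (Tri b)}, LGrp z₀ r A →
  LGrp z₁ r₁ A' → ∀ (x y : Cn b) (d d' : ℝ) (h k : Cn b → Cn b), 0 < d → 0 < d' →
  ball x d ⊆ ball z₀ r → ball y d' ⊆ ball z₁ r₁ → DifferentiableOn ℂ h (ball x d) →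
  MapsTo h (ball x d) (ball z₁ r₁) → DifferentiableOn ℂ k (ball y d') →
  MapsTo k (ball y d') (ball x d) → (∀ w ∈ ball y d', h (k w) = w) →
  (∃ η > 0, ∀ t ∈ A, Near z₀ (r / 2) t.g η → ∃ t' ∈ A', ∃ e > 0, ∀ z ∈ ball x e,
    t'.g (h z) = h (t.g z)) →
  (∃ η > 0, ∀ t' ∈ A', Near z₁ (r₁ / 2) t'.g η → ∃ t ∈ A, ∃ e > 0, ∀ w ∈ ball y e,
    t.g (k w) = k (t'.g w)) →
  ∀ V, InZL z₀ r A V → ∃ V', InZL z₁ r₁ A' V' ∧ ∀ z ∈ ball x d, V' (h z) = fderiv ℂ h z (V z)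

end Pool.Agent.Helper45.SP
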