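import Pool.Agent.Helper86.SP.LCONV
import Pool.Agent.Helper27.SP.SURJ
import Pool.Agent.Helper79.SP.LMUL
import Pool.Agent.Helper80.SP.POW
import Pool.Agent.Helper56.SP.PEX
import Pool.Agent.Helper82.SP.LCMP
import Pool.Agent.Helper33.SP.LSCALE
import Pool.Agent.Helper6.SP.LSUB
import Pool.Agent.Helper82.SP.LEXT
import Pool.Agent.Helper48.SP.LADD
import Pool.Agent.Helper89.SP.LLIM
import Pool.Agent.Helper69.SP.LNCMP
import Pool.Agent.Helper27.SP.LFIN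
import Pool.Agent.Helper89.SP.LAPPR
import Pool.Agent.Helper62.SP.LTRANS
import Pool.Agent.Helper56.SP.LAD
import Pool.Agent.Helper32.SP.LADAPX
import Pool.Agent.Helper97.SP.LBRL
import Pool.Agent.Helper85.SP.LLALG
import Pool.Agent.Helper82.SP.PICK
import Pool.Agent.Helper74.SP.COMM
import Pool.Agent.Helper35.SP.STEP
import Pool.Agent.Helper16.SP.LNRM
import Pool.Agent.Helper97.SP.SEQ
import Pool.Agent.Helper55.SP.NILT
import Pool.Agent.Helper40.SP.ANG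
import Pool.Agent.Helper65.SP.NILLIM
import Pool.Agent.Helper56.SP.ADN
import Pool.Agent.Helper86.SP.LCENT
import Pool.Agent.Helper38.SP.ZTRANS
import Pool.Agent.Helper2.SP.PG
import Pool.Agent.Helper38.SP.CONJ
import Pool.Agent.Helper63.SP.FGM

/-!
# Sections F and G: assembly
-/

namespace Pool.Agent.Helper45.SP

open Pool.Agent.Helper10.SP

theorem t_LCONV : S_LCONV := Pool.Agent.Helper86.SP.LCONV
theorem t_SURJ : S_SURJ := Pool.Agent.Helper27.SP.SURJ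
theorem t_LMUL : S_LMUL := Pool.Agent.Helper79.SP.LMUL t_LCONV t_SURJ
theorem t_POW : S_POW := Pool.Agent.Helper80.SP.POW t_LCONV
theorem t_PEX : S_PEX := Pool.Agent.Helper56.SP.PEX t_LCONV
theorem t_LCMP : S_LCMP' := Pool.Agent.Helper82.SP.LCMP t_LCONV t_POW t_PEX
theorem t_LSCALE : S_LSCALE := Pool.Agent.Helper33.SP.LSCALE t_POW t_PEX
theorem t_LSUB : S_LSUB := Pool.Agent.Helper6.SP.LSUB t_LCMP t_LSCALE
theorem t_LEXT : S_LEXT := Pool.Agent.Helper82.SP.LEXT t_LCONV t_LSUB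
theorem t_LADD : S_LADD' := Pool.Agent.Helper48.SP.LADD t_LCONV t_LMUL t_SURJ
theorem t_LLIM : S_LLIM' := Pool.Agent.Helper89.SP.LLIM
theorem t_LNCMP : S_LNCMP := Pool.Agent.Helper69.SP.LNCMP t_LCMP
theorem t_LFIN : S_LFIN := Pool.Agent.Helper27.SP.LFIN t_LNCMP t_LLIM t_LADD
theorem t_LAPPR : S_LAPPR := Pool.Agent.Helper89.SP.LAPPR t_LSUB t_LADD
theorem t_LTRANS : S_LTRANS := Pool.Agent.Helper62.SP.LTRANS t_LSUB
theorem t_LAD : S_LAD := Pool.Agent.Helper56.SP.LAD t_LCONV t_LMUL t_LTRANS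
theorem t_LADAPX : S_LADAPX := Pool.Agent.Helper32.SP.LADAPX t_SURJ
theorem t_LBRL : S_LBRL := Pool.Agent.Helper97.SP.LBRL t_LADD t_LLIM t_LNCMP t_LAD t_LADAPX
theorem t_LLALG : S_LLALG := Pool.Agent.Helper85.SP.LLALG t_LADD t_LFIN t_LBRL
theorem t_PICK : S_PICK := Pool.Agent.Helper82.SP.PICK
theorem t_COMM : S_COMM := Pool.Agent.Helper74.SP.COMM t_LMUL t_LCMP t_SURJ t_PICK
theorem t_STEP : S_STEP := Pool.Agent.Helper35.SP.STEP t_SURJ t_LNCMP t_LADD
theorem t_LNRM : S_LNRM := Pool.Agent.Helper16.SP.LNRM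
theorem t_SEQ : S_SEQ := Pool.Agent.Helper97.SP.SEQ
theorem t_NILT : S_NILT :=
  Pool.Agent.Helper55.SP.NILT t_LNRM t_COMM t_STEP t_SEQ t_LAPPR t_LNCMP
theorem t_ANG : S_ANG := Pool.Agent.Helper40.SP.ANG t_PEX t_PICK
theorem t_NILLIM : S_NILLIM := Pool.Agent.Helper65.SP.NILLIM
theorem t_ADN : S_ADN :=
  Pool.Agent.Helper56.SP.ADN t_LNRM t_LNCMP t_LAD t_LADAPX t_NILT t_ANG t_NILLIM
theorem t_LCENT : S_LCENT := Pool.Agent.Helper86.SP.LCENT t_LLALG t_ADN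
theorem t_ZTRANS : S_ZTRANS := Pool.Agent.Helper38.SP.ZTRANS t_LTRANS
theorem t_PG : S_PG := Pool.Agent.Helper2.SP.PG
theorem t_CONJ : S_CONJ := Pool.Agent.Helper38.SP.CONJ

/-- Sections F and G: a complete proper pseudogroup is transversally discrete or has a commutative
local system of infinitesimal generators. -/
theorem fg : S_FG :=
  Pool.Agent.Helper63.SP.FGM t_PG t_CONJ t_LEXT t_LADD t_LFIN t_LCENT t_ZTRANS

end Pool.Agent.Helper45.SP
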