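import Pool.Agent.Helper45.SP.LDefs

/-!
# Section F: the Lie algebra of the closure of a local group

All statements are about one local group `LGrp z₀ r A` (the last one about two). The proofs in the
docstrings are complete. `Pool.Agent.Helper95.Lin` contains (proved, see `Helper95/Lin/Assembly.lean`)
`S_MONTEL` (Montel), `S_IDT` (identity theorem), `S_DLIM` (limits of holomorphic maps), `S_CAU`
(Cauchy estimates); they may be used everywhere. USES lists the other statements which may be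
assumed as hypotheses.
-/

open Complex Metric Set Filter Topology
open scoped ContDiff ComplexConjugate

namespace Pool.Agent.Helper45.SP

open Pool.Agent.Helper95.Lin Pool.Agent.Helper10.SP

/-- LCONV. Near the identity on a small ball implies near the identity on every smaller concentric
ball. PROOF. We may assume `0 < ρ`. If it is false there are `ε > 0` and `t_n ∈ A` with
`Near x ρ₀ (t_n).g (1/(n+1))` and not `Near z₀ ρ (t_n).g ε`. By Montel (`bdd`) a subsequence converges,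
uniformly on compact subsets of `ball z₀ r`, to a holomorphic `F`; `F z = z` on `ball x ρ₀`, so `F z = z` on
`ball z₀ r` by the identity theorem (the ball is convex). Uniform convergence on
`closedBall z₀ ρ ⊆ ball z₀ r` gives a contradiction. -/
def S_LCONV : Prop := ∀ {b : ℕ} {z₀ : Cn b} {r : ℝ} {A : Set (Tri b)}, LGrp z₀ r A →
  ∀ (x : Cn b) (ρ₀ : ℝ), 0 < ρ₀ → ball x ρ₀ ⊆ ball z₀ r → ∀ ρ < r, ∀ ε > 0, ∃ η > 0, ∀ t ∈ A,
    Near x ρ₀ t.g η → Near z₀ ρ t.g ε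

/-- SURJ. A holomorphic map near the identity is onto a slightly smaller ball, and its derivative is
near `1`. PROOF. Let `m = (ρ' - ρ)/4`. By the Cauchy estimates (`S_CAU` for `U = ball z₀ ρ'`,
`K = closedBall z₀ (ρ + 2m)`) there is `C` with: `‖f - id‖ ≤ η` implies `‖D(f - id)‖ ≤ C η` on `K`. Take
`η ≤ min (m, 1/(2 C + 2), ε/(C+1))`. For `w ∈ ball z₀ ρ` the map `z ↦ w - (f z - z)` maps `closedBall w η`
into itself and is `1/2`-Lipschitz there (convexity), so it has a fixed point `z`: `f z = w`. -/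
def S_SURJ : Prop := ∀ {b : ℕ} (z₀ : Cn b) (ρ ρ' : ℝ), ρ < ρ' → ∀ ε > 0, ∃ η > 0,
  ∀ f : Cn b → Cn b, DifferentiableOn ℂ f (ball z₀ ρ') → Near z₀ ρ' f η →
    (∀ w ∈ ball z₀ ρ, ∃ z ∈ ball z₀ ρ', f z = w ∧ ‖z - w‖ ≤ ε) ∧
    ∀ z ∈ ball z₀ ρ, ‖fderiv ℂ f z - ContinuousLinearMap.id ℂ (Cn b)‖ ≤ ε

/-- LMUL. Products and inverses on large balls. USES: LCONV, SURJ.
PROOF. Let `ρ < ρ₁ < ρ₂ < r` and `η` such that (`LCONV` with `x = z₀`, `ρ₀ = r/2`) `Near z₀ (r/2) f η` implies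
`Near z₀ ρ₂ f δ` with `δ` smaller than the differences of the radii and so small that `SURJ` applies. Product:
`u ∈ A` with `u = t.comp s` near `z₀`; `s.g` maps `ball z₀ ρ₁` into `ball z₀ r`, all three components of
`t.comp s` are holomorphic on `ball z₀ ρ₁`; the identity theorem gives equality there. Inverse: `u ∈ A`
with `u.comp t = one` near `z₀`, hence on `ball z₀ ρ₂` (`t.g` maps it into `ball z₀ r`). By `SURJ` each
`w ∈ ball z₀ ρ₁` is `t.g z` with `z ∈ ball z₀ ρ₂`, so `u.g w = z ∈ ball z₀ r` and `t.g (u.g w) = w`. With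
`u.a w * t.a z = 1` and `u.a w * t.β z + u.β w = 0` the other two components of `t.comp u` at `w` are
`t.a z * u.a w = 1` and `t.a z * u.β w + t.β z = - t.a z * u.a w * t.β z + t.β z = 0`. `Near z₀ ρ u.g ε'` holds
since `u.g w - w = z - t.g z`, `‖z - t.g z‖ ≤ δ`. -/
def S_LMUL : Prop := ∀ {b : ℕ} {z₀ : Cn b} {r : ℝ} {A : Set (Tri b)}, LGrp z₀ r A →
  ∀ ρ < r, ∀ ε > 0, ∃ η > 0, ∀ t ∈ A, Near z₀ (r / 2) t.g η →
    (∀ s ∈ A, Near z₀ (r / 2) s.g η → MapsTo s.g (ball z₀ ρ) (ball z₀ r) ∧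
      ∃ u ∈ A, u.EqOn (t.comp s) (ball z₀ ρ)) ∧
    (∀ s ∈ A, Near z₀ (r / 2) s.g η → ∀ u ∈ A, IsMul z₀ u t s → u.EqOn (t.comp s) (ball z₀ ρ)) ∧
    ∃ u ∈ A, (u.comp t).EqOn Tri.one (ball z₀ ρ) ∧ (t.comp u).EqOn Tri.one (ball z₀ ρ) ∧
      MapsTo u.g (ball z₀ ρ) (ball z₀ r) ∧ Near z₀ ρ u.g ε

/-- POW. Pointwise comparison of the displacements of `t` and of its powers. USES: LCONV.
PROOF. Fix `ρ < ρ₁ < ρ₂ < r` with `0 < ρ₁`. By `LCONV` (`x = z₀`, `ρ₀ = ρ`) choose `c` such that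
`Near z₀ ρ f c` implies `Near z₀ ρ₂ f ε`, where `ε` is smaller than `ρ₁ - ρ`, `ρ₂ - ρ₁` and so small that
(Cauchy) `‖D(f - id)‖ ≤ 1/2` on `ball z₀ ρ₁`. Let `u` be the powers. (i) `(u (l+1)).g = t.g ∘ (u l).g` on
`ball z₀ ρ₁` for `l < J` by the identity theorem (`(u l).g` maps `ball z₀ ρ₁` into `ball z₀ ρ₂`).
(ii) `(u l).g (t.g z) = t.g ((u l).g z)` on `ball z₀ ρ₁` for `l < J`, by induction on `l`: both sides are
holomorphic on `ball z₀ ρ₁`, and for `z ∈ ball z₀ (ρ₁ - ε)` (so `t.g z ∈ ball z₀ ρ₁`)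
`(u (l+1)).g (t.g z) = t.g ((u l).g (t.g z)) = t.g (t.g ((u l).g z)) = t.g ((u (l+1)).g z)`; identity
theorem. (iii) Let `h = (1/J) ∑_{l<J} (u l).g` (`J ≥ 1`; for `J = 0` all is trivial). For `z ∈ ball z₀ ρ`,
`J (h (t.g z) - h z) = ∑_{l<J} ((u l).g (t.g z) - (u l).g z) = ∑_{l<J} ((u (l+1)).g z - (u l).g z) =
(u J).g z - z`. `h - id` has derivative of norm `≤ 1/2` on the convex set `ball z₀ ρ₁`, which contains `z`
and `t.g z`, so `‖(h (t.g z) - h z) - (t.g z - z)‖ ≤ ‖t.g z - z‖ / 2`. -/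
def S_POW : Prop := ∀ {b : ℕ} {z₀ : Cn b} {r : ℝ} {A : Set (Tri b)}, LGrp z₀ r A →
  ∀ ρ, 0 < ρ → ρ < r → ∃ c > 0, ∀ t ∈ A, Near z₀ ρ t.g c → ∀ (J : ℕ) (u : ℕ → Tri b),
    Powers z₀ r A t J u → (∀ l < J, Near z₀ ρ (u l).g c) → ∀ z ∈ ball z₀ ρ,
    J * ‖t.g z - z‖ ≤ 2 * ‖(u J).g z - z‖ ∧ ‖(u J).g z - z‖ ≤ 2 * (J * ‖t.g z - z‖)

/-- PEX. Powers exist as long as they are near the identity. USES: LCONV.
PROOF. By `LCONV` choose `c` such that `Near z₀ ρ f c` implies `Near z₀ (r/2) f η` with the `η` of `mul`. Define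
`u 0` by `one` and `u (l+1)` as a product of `t` and `u l` given by `mul` if `u l` is `c`-near, and as
`u l` otherwise. -/
def S_PEX : Prop := ∀ {b : ℕ} {z₀ : Cn b} {r : ℝ} {A : Set (Tri b)}, LGrp z₀ r A →
  ∀ ρ, 0 < ρ → ρ < r → ∃ c > 0, ∀ t ∈ A, Near z₀ ρ t.g c → ∃ u : ℕ → Tri b,
    (∀ l, u l ∈ A) ∧ (u 0).EqOn Tri.one (ball z₀ r) ∧
    ∀ l, Near z₀ ρ (u l).g c → IsMul z₀ (u (l + 1)) t (u l)

/-- LCMP. Linear comparison of displacements. USES: LCONV, POW, PEX.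
PROOF. Shrink `ρ₀` and choose `ρ₁` with `ρ ≤ ρ₁ < r`, `0 < ρ₁` and `ball x ρ₀ ⊆ ball z₀ ρ₁`. Let `c` be the
minimum of the constants of `POW` and `PEX` for `ρ₁` (a smaller constant is also fine in `POW`; in `PEX`
use its own `u` as long as the elements are `c`-near). By `LCONV` there are `η₁` such that
`Near x ρ₀ f η₁` implies `Near z₀ ρ₁ f (c/2)` for `f = s.g`, `s ∈ A`, and `η` such that `Near x ρ₀ f η` implies
`Near z₀ ρ₁ f (c/4)`. Let `Near x ρ₀ t.g s`, `s ≤ η`, and `u` the powers of `t`. If all `u l` are `c/2`-near on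
`ball z₀ ρ₁`, `POW` gives `J ‖t.g z - z‖ ≤ 2 (c/2)` for all `J`, so `t.g z = z` on `ball z₀ ρ₁`. Otherwise
let `J` be the first index with `u J` not `c/2`-near on `ball z₀ ρ₁`. `J ≥ 2` since `u 0 = id` and `u 1 = t`
(identity theorem) are near. Then `u J` is not `η₁`-near on `ball x ρ₀`, and `POW` at those points gives
`η₁ < 2 J s`. `POW` for `J - 1` gives `(J - 1) ‖t.g z - z‖ ≤ 2 (c/2)` on `ball z₀ ρ₁`, so
`‖t.g z - z‖ ≤ c/(J-1) ≤ 2c/J ≤ (4c/η₁) s`. -/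
def S_LCMP' : Prop := ∀ {b : ℕ} {z₀ : Cn b} {r : ℝ} {A : Set (Tri b)}, LGrp z₀ r A →
  ∀ (x : Cn b) (ρ₀ : ℝ), 0 < ρ₀ → ball x ρ₀ ⊆ ball z₀ r → ∀ ρ < r, ∃ C η : ℝ, 0 ≤ C ∧ 0 < η ∧
    ∀ t ∈ A, ∀ s ≤ η, Near x ρ₀ t.g s → Near z₀ ρ t.g (C * s)

/-- LSCALE. A limit of difference quotients is a generator. USES: LCONV, POW, PEX.
PROOF. Let `ρ < r`, `ε > 0`; we may assume `0 < ρ`; let `ρ < ρ₁ < r`, `c` the minimum of the constants of
`POW`, `PEX` for `ρ₁`, `B ≥ ‖V‖ + 1` and `Λ` a Lipschitz constant of `V` on `ball z₀ ρ₁`. Let `ε' ≤ 1` be small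
and `σ₀` with `2 σ₀ B ≤ min c (ρ₁ - ρ)`. Given `σ < σ₀` choose `k` with `τ_k ≤ ε' σ` and
`‖t_k z - z - τ_k V z‖ ≤ ε' τ_k` on `ball z₀ ρ₁`, so `‖t_k z - z‖ ≤ B τ_k`. `J := ⌊σ/τ_k⌋`. The powers
`u l`, `l ≤ J`, satisfy `‖(u l).g z - z‖ ≤ 2 l B τ_k ≤ 2 σ B ≤ c` on `ball z₀ ρ₁` by induction (`POW`, `PEX`).
For `z ∈ ball z₀ ρ` and `y = (u l).g z ∈ ball z₀ ρ₁`: `(u (l+1)).g z - (u l).g z = t_k y - y =
τ_k V z + O(τ_k (Λ 2 σ B + ε'))` (the product relation holds on `ball z₀ ρ` by the identity theorem).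
Sum over `l < J` and use `|J τ_k - σ| ≤ τ_k ≤ ε' σ`: the total error is at most
`σ (2 Λ σ B + ε' + ε' B) ≤ ε σ` if `ε'` and `σ₀` are small. -/
def S_LSCALE : Prop := ∀ {b : ℕ} {z₀ : Cn b} {r : ℝ} {A : Set (Tri b)}, LGrp z₀ r A →
  ∀ (t : ℕ → Tri b) (τ : ℕ → ℝ) (V : Cn b → Cn b), (∀ k, t k ∈ A) → (∀ k, 0 < τ k) →
  Tendsto τ atTop (𝓝 0) → DifferentiableOn ℂ V (ball z₀ r) → (∀ z, z ∉ ball z₀ r → V z = 0) →
  (∀ ρ < r, ∀ ε > 0, ∀ᶠ k in atTop, ∀ z ∈ ball z₀ ρ, ‖(t k).g z - z - τ k • V z‖ ≤ ε * τ k) →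
  InLL z₀ r A V

/-- LSUB. Sequences of difference quotients have convergent subsequences. USES: LCMP', LSCALE.
PROOF. By `LCMP'` the functions `((t k).g z - z)/τ k` are, for large `k`, bounded on every `ball z₀ ρ`, `ρ < r`
(for the finitely many small `k` too, because of `bdd`). Montel on `ball z₀ r` gives a subsequence
converging uniformly on compact sets to a holomorphic `F`; put `V = F` on the ball and `0` outside;
`LSCALE` for the subsequence. -/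
def S_LSUB : Prop := ∀ {b : ℕ} {z₀ : Cn b} {r : ℝ} {A : Set (Tri b)}, LGrp z₀ r A →
  ∀ (x : Cn b) (ρ₀ : ℝ), 0 < ρ₀ → ball x ρ₀ ⊆ ball z₀ r →
  ∀ (t : ℕ → Tri b) (τ : ℕ → ℝ), (∀ k, t k ∈ A) → (∀ k, 0 < τ k) →
  Tendsto τ atTop (𝓝 0) → (∃ C : ℝ, ∀ k, Near x ρ₀ (t k).g (C * τ k)) →
  ∃ φ : ℕ → ℕ, StrictMono φ ∧ ∃ V, InLL z₀ r A V ∧ ∀ ρ < r, ∀ ε > 0, ∀ᶠ k in atTop,
    ∀ z ∈ ball z₀ ρ, ‖(t (φ k)).g z - z - τ (φ k) • V z‖ ≤ ε * τ (φ k)

/-- LEXT. If there is no nonzero generator the local group is discrete. USES: LCONV, LSUB.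
PROOF. Otherwise there are `t_k ∈ A` with `Near z₀ (r/2) (t_k).g (1/(k+1))` and `(t_k).g ≠ id` on the ball,
so (identity theorem) `τ_k := sup_{ball z₀ (r/2)} ‖(t_k).g z - z‖ > 0`, `τ_k → 0`. `LSUB` with `x = z₀`,
`ρ₀ = r/2`, `C = 1` gives `V`, which is a generator, so `V = 0`, and then
`‖(t_k).g z - z‖ ≤ τ_k / 2` on `ball z₀ (r/2)` for some `k`, contradicting the definition of `τ_k`. -/
def S_LEXT : Prop := ∀ {b : ℕ} {z₀ : Cn b} {r : ℝ} {A : Set (Tri b)}, LGrp z₀ r A →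
  (∀ V, InLL z₀ r A V → ∀ z ∈ ball z₀ r, V z = 0) →
  ∃ η > 0, ∀ t ∈ A, Near z₀ (r / 2) t.g η → ∀ z ∈ ball z₀ r, t.g z = z

/-- LADD. Generators form a real vector space. USES: LCONV, LMUL, SURJ.
PROOF. `0`: the element `one`. Sum: for `ρ < ρ₁ < r`, `t ≈ id + σ V`, `s ≈ id + σ W` on `ball z₀ ρ₁` with
error `ε' σ`; the product `u` (`LMUL`) satisfies on `ball z₀ ρ` `u.g z - z = (t.g (s.g z) - s.g z) +
(s.g z - z) = σ V (s.g z) + σ W z + O(2 ε' σ)` and `‖V (s.g z) - V z‖ ≤ Λ (‖W‖ + 1) σ`. Multiples by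
`c > 0`: replace `σ` by `c σ` and `ε` by `ε/c`. Negative: the inverse `u` of `t ≈ id + σ V` (`LMUL`):
for `w ∈ ball z₀ ρ`, `z = u.g w`: `t.g z = w` and `z ∈ ball z₀ ρ₁` (`Near`),
`u.g w - w = z - t.g z = - σ V z + O(ε' σ)`, `‖V z - V w‖ = O(σ)`. -/
def S_LADD' : Prop := ∀ {b : ℕ} {z₀ : Cn b} {r : ℝ} {A : Set (Tri b)}, LGrp z₀ r A →
  InLL z₀ r A (fun _ => 0) ∧ (∀ V W, InLL z₀ r A V → InLL z₀ r A W → InLL z₀ r A (V + W)) ∧
    ∀ V, InLL z₀ r A V → ∀ c : ℝ, InLL z₀ r A (c • V)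

/-- LLIM. Generators are closed under locally uniform limits. PROOF. Immediate from the definition:
take `V` with `‖V - W‖ ≤ ε/2` on `ball z₀ ρ` and an element `t` with error `ε σ/2` for `V`. -/
def S_LLIM' : Prop := ∀ {b : ℕ} {z₀ : Cn b} {r : ℝ} {A : Set (Tri b)}, LGrp z₀ r A →
  ∀ W : Cn b → Cn b, DifferentiableOn ℂ W (ball z₀ r) → (∀ z, z ∉ ball z₀ r → W z = 0) →
  (∀ ρ < r, ∀ ε > 0, ∃ V, InLL z₀ r A V ∧ ∀ z ∈ ball z₀ ρ, ‖V z - W z‖ ≤ ε) → InLL z₀ r A W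

/-- LNCMP. Comparison of norms on generators. USES: LCMP'.
PROOF. Let `C, η` be as in `LCMP'` for `ρ`. Given `V`, `s ≥ 0` (if `s < 0` there is nothing to prove:
`x ∈ ball x ρ₀`). For `ε > 0` and small `σ` take `t` with error `ε σ` on a ball `ball z₀ ρ₁`, `ρ < ρ₁ < r`, that
contains `ball x ρ₀'` (shrink `ρ₀` at the start): `Near x ρ₀' t.g ((s + ε) σ)`, so
`σ ‖V z‖ ≤ C (s + ε) σ + ε σ` on `ball z₀ ρ`; divide by `σ` and let `ε → 0`. -/
def S_LNCMP : Prop := ∀ {b : ℕ} {z₀ : Cn b} {r : ℝ} {A : Set (Tri b)}, LGrp z₀ r A →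
  ∀ (x : Cn b) (ρ₀ : ℝ), 0 < ρ₀ → ball x ρ₀ ⊆ ball z₀ r → ∀ ρ < r, ∃ C : ℝ, 0 ≤ C ∧
    ∀ V, InLL z₀ r A V → ∀ s : ℝ, (∀ z ∈ ball x ρ₀, ‖V z‖ ≤ s) → ∀ z ∈ ball z₀ ρ, ‖V z‖ ≤ C * s

/-- LFIN. The space of generators is finite dimensional. USES: LNCMP, LLIM', LADD'.
PROOF. On `L` the norm `nL z₀ r` (supremum over `ball z₀ (r/2)`; it is a norm by the identity theorem). A
bounded sequence in `L` is, by `LNCMP`, bounded on every `ball z₀ ρ`, `ρ < r`, so by Montel a subsequence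
converges uniformly on compact subsets of `ball z₀ r`, and the limit is in `L` by `LLIM'`. So the closed
unit ball of `L` is (sequentially) compact: Riesz. Compare `Pool/Agent/Helper75/Lin/Fin.lean`, the
proof of the global version `Lin.S_FIN`. -/
def S_LFIN : Prop := ∀ {b : ℕ} {z₀ : Cn b} {r : ℝ} {A : Set (Tri b)}, LGrp z₀ r A →
  ∀ L : Submodule ℝ (Cn b → Cn b), (∀ V, V ∈ L ↔ InLL z₀ r A V) → FiniteDimensional ℝ L

/-- LAPPR. All elements near the identity are approximated by generators. USES: LSUB, LADD', LNCMP.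
PROOF. Otherwise there are `κ > 0` and `t_k ∈ A`, `s_k > 0`, `s_k → 0`, `Near z₀ ρ (t_k).g s_k`, such that no
generator `V` has `‖(t_k).g z - z - V z‖ ≤ κ s_k` on `ball z₀ ρ` (if `s ≤ 0` then `t.g = id` on the ball and
`V = 0` works). `LSUB` (`x = z₀`, `ρ₀ = ρ`, `C = 1`, `τ = s`) gives a generator `V` with
`‖(t_k).g z - z - s_k V z‖ ≤ κ s_k` for some `k` (in the subsequence), and `s_k • V` is a generator:
contradiction. -/
def S_LAPPR : Prop := ∀ {b : ℕ} {z₀ : Cn b} {r : ℝ} {A : Set (Tri b)}, LGrp z₀ r A →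
  ∀ ρ, 0 < ρ → ρ < r → ∀ κ > 0, ∃ s₀ > 0, ∀ t ∈ A, ∀ s ≤ s₀, Near z₀ ρ t.g s →
    ∃ V, InLL z₀ r A V ∧ ∀ z ∈ ball z₀ ρ, ‖t.g z - z - V z‖ ≤ κ * s

/-- LTRANS. Transport of generators by a local biholomorphism `h` (with local inverse `k`) which
conjugates the elements near the identity of the first local group to elements of the second.
USES: LSUB.
PROOF. Let `V` be a generator of `A`. For `σ_n = 1/(n+1)` (large `n`) let `t_n ∈ A` with
`‖(t_n).g z - z - σ_n V z‖ ≤ ε_n σ_n` on `ball z₀ ρ_n` with `ε_n → 0`, `ρ_n → r` (diagonal choice from the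
definition of `InLL`), and `t'_n ∈ A'` with `t'_n (h z) = h (t_n z)` near `x`. Choose `d₁ < d` and `d'' < d'` with
`k (ball y d'') ⊆ ball x d₁` (compactness: `k` is continuous on `closedBall y d''`, with values in the open
ball). For large `n`, `t_n` maps `ball x d₁` into `ball x d` (`V` is bounded on `ball x d₁`, whose closure is in
`ball z₀ r`), so `t'_n (h z) = h (t_n z)` on `ball x d₁` by the identity theorem (both sides holomorphic:
`h` maps into `ball z₁ r₁`). For `w ∈ ball y d''`: `t'_n w - w = h (t_n (k w)) - h (k w)`, of norm `≤ C σ_n`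
since `h` is Lipschitz on a slightly smaller ball than `ball x d`. `LSUB` for `A'` with `x := y`, `ρ₀ := d''`,
`τ := σ` gives (along a subsequence) `V' ∈ L(A')`. For `z ∈ k (ball y d'')`, `w = h z`...: at
`w ∈ ball y d''`, `z = k w`: `V' w = lim (t'_n w - w)/σ_n = lim (h (t_n z) - h z)/σ_n = Dh z (V z)`, `w = h z`.
The set of these `z` contains a neighbourhood of `k y`: it is `k (ball y d'')`, and `k` is open since
`h ∘ k = id` (its derivative is invertible, inverse function theorem). Identity theorem on `ball x d` for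
`z ↦ V' (h z) - Dh z (V z)`. -/
def S_LTRANS : Prop := ∀ {b : ℕ} {z₀ z₁ : Cn b} {r r₁ : ℝ} {A A' : Set (Tri b)}, LGrp z₀ r A →
  LGrp z₁ r₁ A' → ∀ (x y : Cn b) (d d' : ℝ) (h k : Cn b → Cn b), 0 < d → 0 < d' →
  ball x d ⊆ ball z₀ r → ball y d' ⊆ ball z₁ r₁ → DifferentiableOn ℂ h (ball x d) →
  MapsTo h (ball x d) (ball z₁ r₁) → DifferentiableOn ℂ k (ball y d') →
  MapsTo k (ball y d') (ball x d) → (∀ w ∈ ball y d', h (k w) = w) →
  (∃ η > 0, ∀ t ∈ A, Near z₀ (r / 2) t.g η → ∃ t' ∈ A', ∃ e > 0, ∀ z ∈ ball x e,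
    t'.g (h z) = h (t.g z)) →
  ∀ V, InLL z₀ r A V → ∃ V', InLL z₁ r₁ A' V' ∧ ∀ z ∈ ball x d, V' (h z) = fderiv ℂ h z (V z)

/-- LAD. The adjoint action of an element near the identity. USES: LCONV, LMUL, LTRANS.
PROOF. `LTRANS` with `z₁ = z₀`, `A' = A`, `x = z₀`, `d` slightly larger than `r/2`, `h = t.g`,
`k = u.g` for the inverse `u` of `t` (`LMUL` for a radius `ρ` larger than `d`), `y = z₀`, `d'` small. The
conjugation hypothesis: for `s ∈ A` near the identity (depending on `t`), `t s` and `(t s) u` are elements,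
by `LMUL` (all factors are near the identity), and `(t s u)(t z) = t (s z)` near `z₀`. -/
def S_LAD : Prop := ∀ {b : ℕ} {z₀ : Cn b} {r : ℝ} {A : Set (Tri b)}, LGrp z₀ r A →
  ∃ η > 0, ∀ t ∈ A, Near z₀ (r / 2) t.g η → ∀ W, InLL z₀ r A W →
    ∃ W', InLL z₀ r A W' ∧ AdR z₀ r t.g W W'

/-- LADAPX. The first order behaviour of the adjoint action. USES: SURJ.
PROOF. `ρ < ρ₁ < ρ₂ < r/2`. Let `x ∈ ball z₀ ρ₂` and `y = t x`. `‖y - x - σ V x‖ ≤ ε' σ` and by Cauchy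
`‖Dt x - 1 - σ DV x‖ ≤ C ε' σ` on `ball z₀ ρ₂`. So `W' y = Dt x (W x) = W x + σ DV x (W x) + O(ε' σ)` and
`W x = W y - σ DW y (V y) + O(ε' σ + σ²)`, `DV x (W x) = DV y (W y) + O(σ)`; so
`W' y = W y - σ (DW y (V y) - DV y (W y)) + O(ε' σ + σ²)`. Every `y ∈ ball z₀ ρ` is `t x` with
`x ∈ ball z₀ ρ₁` (`SURJ`). All constants depend only on `V`, `W` on `closedBall z₀ (r/2)`. -/
def S_LADAPX : Prop := ∀ {b : ℕ} (z₀ : Cn b) (r : ℝ), 0 < r → ∀ V W : Cn b → Cn b,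
  DifferentiableOn ℂ V (ball z₀ r) → DifferentiableOn ℂ W (ball z₀ r) → ∀ ρ < r / 2, ∀ ε > 0,
  ∃ ε' > 0, ∃ σ₀ > 0, ∀ σ : ℝ, 0 < σ → σ < σ₀ → ∀ t : Cn b → Cn b,
    DifferentiableOn ℂ t (ball z₀ r) → (∀ z ∈ ball z₀ (r / 2), ‖t z - z - σ • V z‖ ≤ ε' * σ) →
    ∀ W' : Cn b → Cn b, AdR z₀ r t W W' →
      ∀ z ∈ ball z₀ ρ, ‖W' z - W z + σ • brV V W z‖ ≤ ε * σ

/-- LBRL. Brackets of generators are generators. USES: LADD', LLIM', LNCMP, LAD, LADAPX.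
PROOF. `V, W` generators. For `n` large take `σ_n = 1/(n+1)`, `t_n ∈ A` with
`‖(t_n).g z - z - σ_n V z‖ ≤ ε_n σ_n` on `ball z₀ (r/2)`, `ε_n → 0`, and `W_n` as in `LAD`. By `LADAPX`,
`U_n := -(1/σ_n) (W_n - W) → brV V W` uniformly on `ball z₀ (r/4)`, and `U_n` is a generator (`LADD'`).
By `LNCMP` applied to differences, `(U_n)` is a Cauchy sequence uniformly on each `ball z₀ ρ`, `ρ < r`; the
limit `U` (put `0` outside the ball) is holomorphic and a generator by `LLIM'`, and it agrees with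
`brV V W` on `ball z₀ (r/4)`, so on the ball by the identity theorem; outside the ball both are `0`
(`brV V W z` involves only `V z = 0` and `W z = 0`). -/
def S_LBRL : Prop := ∀ {b : ℕ} {z₀ : Cn b} {r : ℝ} {A : Set (Tri b)}, LGrp z₀ r A →
  ∀ V W, InLL z₀ r A V → InLL z₀ r A W → InLL z₀ r A (brV V W)

/-- LLALG. The Lie algebra. USES: LADD', LFIN, LBRL.
PROOF. `𝔤` is the submodule of the generators with the bracket `brV`; on the ball (open set) `brV` of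
holomorphic fields is skew and satisfies the Jacobi identity (symmetry of second derivatives), and
outside the ball all is zero. Compare `Pool/Agent/Helper31/Lin/Lalg.lean` (the global version
`Lin.S_LALG`). -/
def S_LLALG : Prop := ∀ {b : ℕ} {z₀ : Cn b} {r : ℝ} {A : Set (Tri b)}, LGrp z₀ r A →
  ∃ (𝔤 : Type) (_ : LieRing 𝔤) (_ : LieAlgebra ℝ 𝔤) (Φ : 𝔤 →ₗ[ℝ] (Cn b → Cn b)),
    LAlg z₀ r A Φ

end Pool.Agent.Helper45.SP
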