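import Pool.Agent.Helper45.SP.GoalsG
import Pool.Agent.Helper10.SP.DefsT

/-!
# Sections F, G: from the pseudogroup to local groups, and the conclusion
-/

open Complex Metric Set Filter Topology
open scoped ContDiff ComplexConjugate

namespace Pool.Agent.Helper45.SP

open Pool.Agent.Helper95.Lin Pool.Agent.Helper10.SP

/-- PG. The maps on the ball of radius `4` form a local group. USES: (nothing; Lin.S_CAU).
PROOF. `A = {t | Big c P i t}`, `z₀ = c i`, `r = 4`; `ball (c i) 4 ⊆ Bd c R` since `R ≥ 8`. `g_holo` ... `a_ne`: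
`holo`. `bdd`: `lip` and the point `z` of `Big` with `t.g z ∈ Bd c 2` (a bounded set). `one`: `one`, `z = c i`.
`mul` (`η = 1/4`): `comp` with `U = U' = ball (c i) 4`, `U'' = ball (c i) 1` (`s.g` maps it into
`ball (c i) 2`) gives `P U'' (t.comp s)`, and `(t.comp s).g (c i) ∈ ball (c i) 1 ⊆ Bd c 2`; `ext` at `z = c i`
gives `u`, which is `Big` (with the point `c i`). `inv`: `inv` for `t` at `z = c i` gives `s`, `U'`, `U''`;
`y = t.g (c i) ∈ ball (c i) 2`, `s.g y = c i ∈ Bd c 2`; `ext` for `s` at `y` gives `u ∈ A` which agrees with `s`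
near `y`; `u.comp t = s.comp t = one` near `c i` by continuity of `t.g`.
`lip`: let `t.g` be `s`-near on `ball (c i) 2`, `s ≤ η` small. By the Cauchy estimates `‖D t.g - 1‖ ≤ C' s` on
`ball (c i) (4/3)`, so `|log ‖det D t.g‖²| ≤ C'' s`; `|Φ z - Φ (t.g z)| ≤ C'' s` (`Φ` is `C¹` on a neighbourhood of
`closedBall (c i) 2`, convex). By `pot` `|log ‖t.a z‖²| ≤ 2 C'' s`. `grow`: `bgr`.
`fin`: otherwise there are `r` and `t_n ∈ A` with `‖t_n.β (c i)‖ ≤ r`, `t_n.g ≠ id` on the ball, and
`sup_{ball (c i) 2} ‖t_n.g z - z‖ =: τ_n → 0`; `τ_n > 0` (identity theorem). Pass to a subsequence with `τ_n`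
strictly decreasing; `fin` gives `k ≠ l` with `t_k = t_l` on the ball, so `τ_k = τ_l`: contradiction. -/
def S_PG : Prop := ∀ {b N : ℕ} (c : Fin N → Cn b) (R : ℝ) (P : Set (Cn b) → Tri b → Prop)
  (Φ : Cn b → ℝ) (C : ℝ), AFol c R P Φ C → ∀ i, PGrp (c i) 4 {t | Big c P i t}

/-- CONJ. Maps of the pseudogroup conjugate elements near the identity. PROOF. `y = t.g x`. The
inverse germ: `inv` for `t` at `x` gives `s`, `U'`, `U''` with `s.g (t.g z) = z` near `x`. `h = t.g`, `k = s.g`. `D t.g x` is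
invertible (`pot`), so `t.g` is open near `x` and also `t.g (s.g w) = w` near `y`; choose first `d` with
`ball x d ⊆ U''`, `ball x d ⊆ ball (c i) 4`, `h (ball x d) ⊆ ball (c j) 4` and then `d'` with `ball y d' ⊆ U'`,
`ball y d' ⊆ ball (c j) 4`, `k (ball y d') ⊆ ball x d`, `h (k w) = w` on `ball y d'`. Let `τ` be in the first local
group, `η`-near the identity on `ball (c i) 2` with `η` small (depending on `x`, `y`, `d`, `d'`). The germ of
`t τ s` at `y` (`comp` twice, small open sets) is a map of the pseudogroup which maps `y` to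
`t.g (τ.g x) ∈ ball (c j) 2` (`y ∈ ball (c j) 2`, which is open, and `‖τ.g x - x‖ ≤ η`; note `x ∈ ball (c i) 2`). By
`ext` it agrees near `y` with some `t'` which is `Big` (with the point `y`), and `t'.g (h z) = h (τ.g z)` near
`x`. The last claim is the same with the roles exchanged: the germ of `s t' t` at `x`. -/
def S_CONJ : Prop := ∀ {b N : ℕ} (c : Fin N → Cn b) (R : ℝ) (P : Set (Cn b) → Tri b → Prop)
  (Φ : Cn b → ℝ) (C : ℝ), AFol c R P Φ C → ∀ i j U t, P U t → ∀ x ∈ U, x ∈ ball (c i) 2 →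
  t.g x ∈ ball (c j) 2 → ∃ (d d' : ℝ) (k : Cn b → Cn b), 0 < d ∧ 0 < d' ∧ ball x d ⊆ U ∧
    ball x d ⊆ ball (c i) 4 ∧ ball (t.g x) d' ⊆ ball (c j) 4 ∧
    MapsTo t.g (ball x d) (ball (c j) 4) ∧ DifferentiableOn ℂ k (ball (t.g x) d') ∧
    MapsTo k (ball (t.g x) d') (ball x d) ∧ (∀ w ∈ ball (t.g x) d', t.g (k w) = w) ∧
    k (t.g x) = x ∧
    (∃ η > 0, ∀ τ, Big c P i τ → Near (c i) (4 / 2) τ.g η → ∃ t', Big c P j t' ∧ ∃ e > 0,
      ∀ z ∈ ball x e, t'.g (t.g z) = t.g (τ.g z)) ∧
    ∃ η > 0, ∀ t', Big c P j t' → Near (c j) (4 / 2) t'.g η → ∃ τ, Big c P i τ ∧ ∃ e > 0,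
      ∀ w ∈ ball (t.g x) e, τ.g (k w) = k (t'.g w)

/-- FG. The alternative. USES: PG, CONJ, LEXT, LADD', LNCMP, LFIN, LCENT, ZTRANS.
PROOF. `A_i = {t | Big c P i t}`, `Z_i` the real vector space of the fields `V` with
`InZL (c i) 4 A_i V`; it is finite dimensional (`LADD'`, `LFIN`; the center condition is linear).
(a) For a map `t` of the pseudogroup with `x ∈ ball (c i) 2`, `t.g x ∈ ball (c j) 2`, `CONJ` and `ZTRANS` (with
`h = t.g`) give a linear injective map `Z_i → Z_j` with `V' (t.g z) = Dt.g z (V z)` near `x` (unique by the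
identity theorem, since `t.g` is open near `x`), and the inverse germ gives the inverse map. So
`dim Z_i = dim Z_j`. (b) Let `m = dim Z_{i₀}`, `S = ⋃ {ball (c i) 2 | dim Z_i = m}`: open with open complement
(the balls are disjoint by `sep`), invariant by (a), nonempty: `S = Bd c 2` by `conn`, so all `dim Z_i = m`.
(c) If `m = 0` then by `LCENT` all generators vanish, for all `i`; `LEXT` gives `η_i`; with
`η = min (η_i) ` and `η ≤ 1` we get `Disc`: `P (ball (c i) 4) t` and `‖t.g z - z‖ ≤ η` on `ball (c i) 3` imply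
`Big c P i t` (point `c i`) and `Near (c i) 2`. (d) If `m > 0` choose bases `V^i_1, …, V^i_m` of the `Z_i` and put
`V_k z = V^i_k z` for `z ∈ ball (c i) 3` (disjoint balls). `holo`: clear. `bdd`: continuity on `closedBall (c i) 3 ⊆
ball (c i) 4` and `N` finite. `indep`: a linear combination vanishing on `ball (c i) 3` vanishes on
`ball (c i) 4` and is `0`. `comm`: `brV = 0`. `gen`: a linear combination is a generator (`InLL`, `ρ = 3`,
`ε = 1/(n+1)`, `σ n ≤ 1/(n+1)`). `trans`: (a): `t.g` transforms the basis `V^i` to a basis of `Z_j`: the matrix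
`A` of the isomorphism `Z_i → Z_j`, `det A ≠ 0`. -/
def S_FGM : Prop := S_FG

end Pool.Agent.Helper45.SP
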