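import Pool.Agent.Helper10.SP.Defs

/-!
# Local groups of holomorphic maps: definitions (sections F and G of Helper10/SP/paper.md)
-/

open Complex Metric Set Filter Topology
open scoped ContDiff ComplexConjugate

namespace Pool.Agent.Helper45.SP

open Pool.Agent.Helper95.Lin Pool.Agent.Helper10.SP

/-- `f` moves the points of the ball by at most `s`. -/
def Near {b : ℕ} (z₀ : Cn b) (ρ : ℝ) (f : Cn b → Cn b) (s : ℝ) : Prop :=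
  ∀ z ∈ ball z₀ ρ, ‖f z - z‖ ≤ s

/-- A local group of holomorphic maps near `z₀` in which all elements are defined on the ball of
radius `r`: products and inverses of elements near the identity are elements, as germs at `z₀`. -/
structure LGrp {b : ℕ} (z₀ : Cn b) (r : ℝ) (A : Set (Tri b)) : Prop where
  pos : 0 < r
  g_holo : ∀ t ∈ A, DifferentiableOn ℂ t.g (ball z₀ r)
  a_holo : ∀ t ∈ A, DifferentiableOn ℂ t.a (ball z₀ r)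
  b_holo : ∀ t ∈ A, DifferentiableOn ℂ t.β (ball z₀ r)
  a_ne : ∀ t ∈ A, ∀ z ∈ ball z₀ r, t.a z ≠ 0
  bdd : ∃ C : ℝ, ∀ t ∈ A, ∀ z ∈ ball z₀ r, ‖t.g z‖ ≤ C
  one : ∃ t ∈ A, t.EqOn Tri.one (ball z₀ r)
  mul : ∃ η > 0, ∀ t ∈ A, ∀ s ∈ A, Near z₀ (r / 2) t.g η → Near z₀ (r / 2) s.g η →
    ∃ u ∈ A, ∃ d > 0, u.EqOn (t.comp s) (ball z₀ d)
  inv : ∃ η > 0, ∀ t ∈ A, Near z₀ (r / 2) t.g η →
    ∃ u ∈ A, ∃ d > 0, (u.comp t).EqOn Tri.one (ball z₀ d)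

/-- A local group with the properties which come from the proper action on the total space. -/
structure PGrp {b : ℕ} (z₀ : Cn b) (r : ℝ) (A : Set (Tri b)) : Prop extends LGrp z₀ r A where
  lip : ∃ η > 0, ∃ C : ℝ, ∀ t ∈ A, ∀ s ≤ η, Near z₀ (r / 2) t.g s →
    ∀ z ∈ ball z₀ (r / 3), |‖t.a z‖ - 1| ≤ C * s
  grow : ∃ η > 0, ∃ C : ℝ, ∀ t ∈ A, Near z₀ (r / 2) t.g η →
    ∀ z ∈ ball z₀ r, ‖t.β z‖ ≤ C * (1 + ‖t.β z₀‖)
  fin : ∀ R : ℝ, ∃ η > 0, ∀ t ∈ A, Near z₀ (r / 2) t.g η → ‖t.β z₀‖ ≤ R →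
    ∀ z ∈ ball z₀ r, t.g z = z

/-- `V` is an infinitesimal generator of the closure of the local group. -/
def InLL {b : ℕ} (z₀ : Cn b) (r : ℝ) (A : Set (Tri b)) (V : Cn b → Cn b) : Prop :=
  DifferentiableOn ℂ V (ball z₀ r) ∧ (∀ z, z ∉ ball z₀ r → V z = 0) ∧
    ∀ ρ < r, ∀ ε > 0, ∃ σ₀ > 0, ∀ σ : ℝ, 0 < σ → σ < σ₀ →
      ∃ t ∈ A, ∀ z ∈ ball z₀ ρ, ‖t.g z - z - σ • V z‖ ≤ ε * σ

/-- `W'` is the transform of `W` by the map `t`, which is near the identity. -/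
def AdR {b : ℕ} (z₀ : Cn b) (r : ℝ) (t : Cn b → Cn b) (W W' : Cn b → Cn b) : Prop :=
  ∀ z ∈ ball z₀ (r / 2), W' (t z) = fderiv ℂ t z (W z)

/-- The norm of a vector field. -/
noncomputable def nL {b : ℕ} (z₀ : Cn b) (r : ℝ) (V : Cn b → Cn b) : ℝ :=
  sSup ((fun z => ‖V z‖) '' ball z₀ (r / 2))

/-- `u` is a product of `t` and `s` as a germ at `z₀`. -/
def IsMul {b : ℕ} (z₀ : Cn b) (u t s : Tri b) : Prop := ∃ d > 0, u.EqOn (t.comp s) (ball z₀ d)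

/-- `c` is the commutator of `t` and `s` as a germ: `c s t = t s`. -/
def IsComm {b : ℕ} (z₀ : Cn b) (c t s : Tri b) : Prop :=
  ∃ d > 0, (c.comp (s.comp t)).EqOn (t.comp s) (ball z₀ d)

/-- `u l`, `l ≤ J`, are the powers of `t`. -/
structure Powers {b : ℕ} (z₀ : Cn b) (r : ℝ) (A : Set (Tri b)) (t : Tri b) (J : ℕ)
    (u : ℕ → Tri b) : Prop where
  mem : ∀ l, u l ∈ A
  zero : (u 0).EqOn Tri.one (ball z₀ r)
  succ : ∀ l < J, IsMul z₀ (u (l + 1)) t (u l)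

/-- `𝔤` is the Lie algebra of the generators. -/
structure LAlg {b : ℕ} (z₀ : Cn b) (r : ℝ) (A : Set (Tri b)) {𝔤 : Type} [LieRing 𝔤]
    [LieAlgebra ℝ 𝔤] (Φ : 𝔤 →ₗ[ℝ] (Cn b → Cn b)) : Prop where
  fin : FiniteDimensional ℝ 𝔤
  inj : Function.Injective Φ
  range : ∀ V, InLL z₀ r A V ↔ ∃ x, Φ x = V
  br : ∀ x y, Φ ⁅x, y⁆ = brV (Φ x) (Φ y)

end Pool.Agent.Helper45.SP
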